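import Pool.Agent.H166R3.AT.Main

set_option autoImplicit false

/-!
# An attractive set of hyperimmune-free degree that computes no 1-random set

This settles the question of MP_99e598_lc in the negative.

Idea of the proof.  Let `uu n = 2^((n+3)^2)` and let block `n` be the interval
`[2^(uu n), 2^(uu (n+1)))`.  A sequence `a` of indices `a n < 2^(uu n - n)` is coded into a set
`code a` by writing on block `n`, periodically, the row with index `a n` of the Hadamard matrix of
size `2^(uu n - n)`.  By orthogonality of the rows only few rows correlate badly with a given set
on one of the pieces of the block, hence for a functional `p ≤ n` only few indices `i` are such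
that the set computed by `p` from `B` correlates badly with row `i` for a set of `B` of measure
more than `2^(-n)`.  These bad indices are enumerable, and the number of indices available grows so
fast with `n` that a forcing with computable bushy trees (avoiding a small enumerable set of
strings) gives a sequence `a` of hyperimmune-free degree that avoids all of them and computes
no 1-random set: a functional is made undefined at some argument, or one finds a computable
subtree, still bushy, on which the functional is total and whose strings of length `l` determine
the first `t l` bits of the set computed, where `2^(t l)` is much larger than the number of these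
strings; then the outputs are covered by a Martin-Löf test.  By the Borel-Cantelli lemma, for
almost every `B` each set computable from `B` differs from `code a` on a set of upper density at
most one half, and by the strong law of large numbers almost every `B` differs from each set
computable from `a` on a set of density exactly one half.
-/

namespace Pool.Agent.Results.MP_99e598_lc.AttractiveHIFNoRandom

open MeasureTheory
open scoped ENNReal

/-- The characteristic function of a set as a (total) function, for use as an oracle. -/
def pf (X : ℕ → Bool) : ℕ →. ℕ := fun n => Part.some (X n).toNat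

/-- The upper density of the symmetric difference. -/
noncomputable def dist (C D : ℕ → Bool) : ℝ :=
  Filter.limsup (fun n : ℕ =>
    (((Finset.range n).filter (fun k => C k ≠ D k)).card : ℝ) / (n : ℝ)) Filter.atTop

/-- The Hausdorff distance of (the closures of) the Turing degrees of `A` and `B`. -/
noncomputable def H (A B : ℕ → Bool) : ℝ := max
  (⨆ C : {C : ℕ → Bool // TuringEquivalent (pf C) (pf A)},
    ⨅ D : {D : ℕ → Bool // TuringEquivalent (pf D) (pf B)}, dist C.1 D.1)
  (⨆ D : {D : ℕ → Bool // TuringEquivalent (pf D) (pf B)},
    ⨅ C : {C : ℕ → Bool // TuringEquivalent (pf C) (pf A)}, dist C.1 D.1)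

/-- `A` is attractive: `H(A,B) = 1/2` for almost every `B`. -/
def Attractive (A : ℕ → Bool) : Prop :=
  ∀ᵐ B ∂(Measure.infinitePi (fun _ : ℕ => (PMF.uniformOfFintype Bool).toMeasure)),
    H A B = 1 / 2

/-- The degree of `A` is hyperimmune-free. -/
def HyperimmuneFree (A : ℕ → Bool) : Prop :=
  ∀ f : ℕ → ℕ, TuringReducible (fun n => Part.some (f n)) (pf A) →
    ∃ g : ℕ → ℕ, Computable g ∧ ∀ n, f n ≤ g n

/-- `V` is a Martin-Löf test: `V k` is the open set given by a set `S k` of strings, c.e. uniformly
in `k`, and has measure at most `2^(-k)`. -/
def MLTest (V : ℕ → Set (ℕ → Bool)) : Prop :=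
  (∃ S : ℕ → Set (List Bool), REPred (fun q : ℕ × List Bool => q.2 ∈ S q.1) ∧
    ∀ k, V k = {X | ∃ n, List.ofFn (fun i : Fin n => X i) ∈ S k}) ∧
  ∀ k, (Measure.infinitePi (fun _ : ℕ => (PMF.uniformOfFintype Bool).toMeasure)) (V k)
    ≤ (2⁻¹ : ℝ≥0∞) ^ k

/-- `X` is 1-random (Martin-Löf random). -/
def OneRandom (X : ℕ → Bool) : Prop := ∀ V, MLTest V → ∃ k, X ∉ V k

theorem result : ∃ A : ℕ → Bool, Attractive A ∧ HyperimmuneFree A ∧
    ∀ R : ℕ → Bool, OneRandom R → ¬ TuringReducible (pf R) (pf A) := by
  obtain ⟨A, h1, h2, h3⟩ := Pool.Agent.H166R3.AT.main
  exact ⟨A, h1, h2, fun R hR => h3 R (fun V hV => hR V ⟨hV.ce, hV.small⟩)⟩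

end Pool.Agent.Results.MP_99e598_lc.AttractiveHIFNoRandom
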